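import Pool.Agent.T9h70.Bic.Add

set_option autoImplicit false

namespace Pool.Agent.T9h70.Ord

open Finset Pool.Agent.T9h70.Bic

/-- the elements of a finite set in increasing order -/
noncomputable def en (J : Finset ℕ) (s : ℕ) : ℕ :=
  if hs : s < J.card then J.orderEmbOfFin rfl ⟨s, hs⟩ else 0

theorem en_mem {J : Finset ℕ} {s : ℕ} (hs : s < J.card) : en J s ∈ J := by
  unfold en
  rw [dif_pos hs]
  exact orderEmbOfFin_mem _ _ _

theorem en_lt {J : Finset ℕ} {s t : ℕ} (hst : s < t) (ht : t < J.card) : en J s < en J t := by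
  unfold en
  rw [dif_pos ht, dif_pos (hst.trans ht)]
  exact (J.orderEmbOfFin rfl).strictMono (by simpa using hst)

theorem en_inj {J : Finset ℕ} {s t : ℕ} (hs : s < J.card) (ht : t < J.card)
    (h : en J s = en J t) : s = t := by
  rcases lt_trichotomy s t with h1 | h1 | h1
  · have := en_lt h1 ht
    omega
  · exact h1
  · have := en_lt h1 hs
    omega

/-- the set of the elements with the numbers `a, …, b - 1` -/
noncomputable def seg (Q : Finset ℕ) (a b : ℕ) : Finset ℕ := (Ico a b).image (en Q)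

theorem seg_sub {Q : Finset ℕ} {a b : ℕ} (hb : b ≤ Q.card) : seg Q a b ⊆ Q := by
  intro x hx
  obtain ⟨s, hs, rfl⟩ := mem_image.1 hx
  exact en_mem (by have := (mem_Ico.1 hs).2; omega)

theorem seg_card {Q : Finset ℕ} {a b : ℕ} (hb : b ≤ Q.card) : (seg Q a b).card = b - a := by
  unfold seg
  rw [card_image_of_injOn, Nat.card_Ico]
  intro s hs t ht hst
  rw [mem_coe, mem_Ico] at hs ht
  exact en_inj (by omega) (by omega) hst

theorem seg_sum {Q : Finset ℕ} {a b : ℕ} (hb : b ≤ Q.card) :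
    ∑ x ∈ seg Q a b, x = ∑ s ∈ Ico a b, en Q s := by
  unfold seg
  rw [sum_image]
  intro s hs t ht hst
  rw [mem_coe, mem_Ico] at hs ht
  exact en_inj (by omega) (by omega) hst

theorem en_seg {Q : Finset ℕ} {a b s : ℕ} (hb : b ≤ Q.card) (hs : a + s < b) :
    en (seg Q a b) s = en Q (a + s) := by
  have hc := seg_card (Q := Q) (a := a) hb
  have h1 : s < (seg Q a b).card := by omega
  have h2 : (fun t : Fin (seg Q a b).card => en Q (a + t)) = (seg Q a b).orderEmbOfFin rfl := by
    refine orderEmbOfFin_unique rfl (fun t => ?_) (fun t t' htt => ?_)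
    · refine mem_image_of_mem _ (mem_Ico.2 ?_)
      have := t.2
      omega
    · have h3 : (t : ℕ) < t' := htt
      have h4 := t'.2
      exact en_lt (by omega) (by omega)
  have h3 := congrFun h2 ⟨s, h1⟩
  simp only at h3
  rw [h3]
  unfold en
  rw [dif_pos h1]

/-- the type of the colours of the sets of distances -/
def Ka (h : ℕ) (K : Type) : Type := Prop × Prop × (Fin (h + 1) → K)

noncomputable instance (h : ℕ) (K : Type) [Fintype K] : Fintype (Ka h K) := by
  classical
  exact inferInstanceAs (Fintype (Prop × Prop × (Fin (h + 1) → K)))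

/-- The additive part for ordered graphs: `S` is the set of the distances. -/
theorem additive_ord (h r w : ℕ) (hr : 0 < r) (K : Type) [Fintype K] : ∃ n,
    ∀ (S : ℕ → Prop) (col : (Fin r → ℕ) → K), S 1 →
    (∀ l : ℕ → ℕ, (∀ i ≤ r, 1 ≤ l i ∧ S (l i)) →
      (∀ i j, 2 ≤ j → j ≤ r → i + j ≤ r + 1 → ¬ S (∑ t ∈ Ico i (i + j), l t)) →
      ∑ t ∈ range (r + 1), l t ≤ n → col (fun i => l i) ≠ col (fun i => l (i + 1))) →
    (∀ Q : Finset ℕ, (∀ a ∈ Q, a ≤ n) → w ≤ Q.card → ∃ a ∈ Q, ∃ b ∈ Q, a < b ∧ ¬ S (b - a)) →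
    (∀ (X Y : Finset ℕ), X.card = h → Y.card = h → (∀ x ∈ X, 0 < x ∧ x ≤ n ∧ S x) →
      (∀ y ∈ Y, y ≤ n) → (∀ a ∈ X, ∀ b ∈ X, a < b → ¬ S (b - a)) →
      (∀ a ∈ Y, ∀ b ∈ Y, a < b → ¬ S (b - a)) →
      (∀ a ∈ X, ∀ b ∈ Y, a < b ∧ S (b - a)) → ∃ b ∈ Y, S b) → False := by
  classical
  set H := r * h with hH
  set T := w * H + H + 2 with hT
  set q := T + 2 * h + w + (r + 1) * (h + 1) with hq
  obtain ⟨B, hB⟩ := ram_all (Ka h K) T q
  set n1 := r ^ B with hn1
  refine ⟨(r + 1) * n1 + q * n1, fun S col h1 hseq hclq hpat => ?_⟩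
  rcases Nat.eq_zero_or_pos h with hh | hh
  · subst hh
    obtain ⟨b, hb, -⟩ := hpat ∅ ∅ rfl rfl (by simp) (by simp) (by simp) (by simp) (by simp)
    simp at hb
  have hn1pos : 1 ≤ n1 := Nat.one_le_pow _ _ hr
  obtain ⟨A, hA, hA'⟩ := chain hr S col h1 hseq B (Nat.le_add_right _ _)
  let c : Finset ℕ → Ka h K := fun J =>
    (S (∑ a ∈ J, a), (∃ a ∈ J, ∃ b ∈ J, a < b ∧ S (b - a)),
      fun j => col (fun i => ∑ t ∈ range (j : ℕ), en J (i * j + t)))
  obtain ⟨Q, hQA, hQc, hQ⟩ := hB c A (by omega)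
  have hQ' : ∀ a ∈ Q, S a ∧ 1 ≤ a ∧ a ≤ n1 := fun a ha => hA' a (hQA ha)
  have hw1 : w ≤ Q.card := by omega
  have hTQ : T ≤ Q.card := by omega
  -- sums of segments
  have hle : ∀ J ⊆ Q, ∑ a ∈ J, a ≤ J.card * n1 := by
    intro J hJ
    rw [← smul_eq_mul, ← sum_const]
    exact sum_le_sum fun a ha => (hQ' a (hJ ha)).2.2
  have hconst : ∀ t ≤ T, ∀ J ⊆ Q, ∀ J' ⊆ Q, J.card = t → J'.card = t →
      (S (∑ a ∈ J, a) ↔ S (∑ a ∈ J', a)) := by
    intro t ht J hJ J' hJ' h2 h3
    obtain ⟨cl, hcl⟩ := hQ t ht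
    have e := (hcl J hJ h2).trans (hcl J' hJ' h3).symm
    have e1 : (c J).1 = (c J').1 := by rw [e]
    exact iff_of_eq e1
  -- the differences are not distances
  obtain ⟨a0, ha0, b0, hb0, hab0, hn0⟩ := hclq Q (fun a ha => by
    have := (hQ' a ha).2.2
    nlinarith) hw1
  have hdiff : ∀ a ∈ Q, ∀ b ∈ Q, a < b → ¬ S (b - a) := by
    intro a ha b hb hab hS
    obtain ⟨cl, hcl⟩ := hQ 2 (by omega)
    have sub : ∀ a ∈ Q, ∀ b ∈ Q, ({a, b} : Finset ℕ) ⊆ Q := by
      intro a ha b hb x hx
      rcases mem_insert.1 hx with rfl | hx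
      · exact ha
      · rw [mem_singleton.1 hx]
        exact hb
    have e := (hcl {a, b} (sub a ha b hb) (card_pair hab.ne)).trans
      (hcl {a0, b0} (sub a0 ha0 b0 hb0) (card_pair hab0.ne)).symm
    have e1 : (c {a, b}).2.1 = (c {a0, b0}).2.1 := by rw [e]
    have e2 : (c {a, b}).2.1 := ⟨a, by simp, b, by simp, hab, hS⟩
    rw [e1] at e2
    obtain ⟨a', ha', b', hb', hab', hS'⟩ := e2
    rw [mem_insert, mem_singleton] at ha' hb'
    rcases ha' with rfl | rfl <;> rcases hb' with rfl | rfl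
    · exact lt_irrefl _ hab'
    · exact hn0 hS'
    · omega
    · exact lt_irrefl _ hab'
  -- step: sums of `j ≥ h` elements being distances
  have hstep : ∀ j, h ≤ j → j + 1 ≤ T → (∀ J ⊆ Q, J.card = j → S (∑ a ∈ J, a)) →
      ∀ J ⊆ Q, J.card = j + 1 → S (∑ a ∈ J, a) := by
    intro j hj hjT hSj
    by_contra hcon
    push Not at hcon
    obtain ⟨J0, hJ0, hJ0c, hJ0S⟩ := hcon
    obtain ⟨X, hX, hXc⟩ := exists_subset_card_eq (s := Q) (n := h) (by omega)
    have hc1 : (Q \ X).card = Q.card - X.card := card_sdiff_of_subset hX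
    obtain ⟨E, hE, hEc⟩ := exists_subset_card_eq (s := Q \ X) (n := j - h) (by omega)
    have hc2 : ((Q \ X) \ E).card = (Q \ X).card - E.card := card_sdiff_of_subset hE
    obtain ⟨Y, hY, hYc⟩ := exists_subset_card_eq (s := (Q \ X) \ E) (n := h) (by omega)
    have hXQ : ∀ a ∈ X, a ∈ Q := fun a ha => hX ha
    have hEQ : ∀ a ∈ E, a ∈ Q ∧ a ∉ X := fun a ha => mem_sdiff.1 (hE ha)
    have hYQ : ∀ a ∈ Y, a ∈ Q ∧ a ∉ X ∧ a ∉ E := fun a ha => by
      have h1 := mem_sdiff.1 (hY ha)
      have h2 := mem_sdiff.1 h1.1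
      exact ⟨h2.1, h2.2, h1.2⟩
    set s := ∑ a ∈ X, a + ∑ a ∈ E, a with hs
    have hXE : Disjoint X E := by
      rw [disjoint_left]
      intro a ha ha'
      exact (hEQ a ha').2 ha
    have hsum : s = ∑ a ∈ X ∪ E, a := by rw [sum_union hXE]
    have hXEc : (X ∪ E).card = j := by
      rw [card_union_of_disjoint hXE, hXc, hEc]
      omega
    have hXEQ : X ∪ E ⊆ Q := union_subset hX fun a ha => (hEQ a ha).1
    have hYd : ∀ b ∈ Y, b ∉ X ∪ E := fun b hb h => by
      rcases mem_union.1 h with h | h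
      · exact (hYQ b hb).2.1 h
      · exact (hYQ b hb).2.2 h
    have hxs : ∀ a ∈ X, a ≤ s := by
      intro a ha
      rw [hsum]
      exact single_le_sum (f := fun x => x) (fun _ _ => Nat.zero_le _) (mem_union_left _ ha)
    have hsn : s ≤ j * n1 := by
      rw [hsum, ← hXEc]
      exact hle _ hXEQ
    obtain ⟨y, hy, hbS⟩ := hpat X (Y.image fun b => s + b) hXc
      (by rw [card_image_of_injOn (fun a _ b _ hab => by simpa using hab), hYc])
      (fun x hx => by
        have h2 := hQ' x (hXQ x hx)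
        refine ⟨h2.2.1, ?_, h2.1⟩
        nlinarith [h2.2.2])
      (fun y hy => by
        obtain ⟨b, hb, rfl⟩ := mem_image.1 hy
        have h2 := (hQ' b (hYQ b hb).1).2.2
        have h3 : j + 1 ≤ q := by omega
        have h4 : (j + 1) * n1 ≤ q * n1 := Nat.mul_le_mul_right _ h3
        have h5 : (j + 1) * n1 = j * n1 + n1 := Nat.succ_mul _ _
        omega)
      (fun a ha b hb hab => hdiff a (hXQ a ha) b (hXQ b hb) hab)
      (fun x hx y hy hxy => by
        obtain ⟨a, ha, rfl⟩ := mem_image.1 hx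
        obtain ⟨b, hb, rfl⟩ := mem_image.1 hy
        have e1 : s + b - (s + a) = b - a := by omega
        rw [e1]
        exact hdiff a (hYQ a ha).1 b (hYQ b hb).1 (by omega))
      (fun x hx y hy => by
        obtain ⟨b, hb, rfl⟩ := mem_image.1 hy
        have h2 := hQ' b (hYQ b hb).1
        have h3 := hxs x hx
        refine ⟨by omega, ?_⟩
        have hxXE : x ∈ X ∪ E := mem_union_left _ hx
        have hb' : b ∉ (X ∪ E).erase x := fun h => hYd b hb (mem_of_mem_erase h)
        have h4 := hSj (insert b ((X ∪ E).erase x)) (by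
          intro z hz
          rcases mem_insert.1 hz with rfl | hz
          · exact (hYQ z hb).1
          · exact hXEQ (mem_of_mem_erase hz)) (by
          rw [card_insert_of_notMem hb', card_erase_of_mem hxXE, hXEc]
          omega)
        rw [sum_insert hb'] at h4
        have h5 : x + ∑ a ∈ (X ∪ E).erase x, a = s := by
          rw [hsum]
          exact add_sum_erase (X ∪ E) (fun a => a) hxXE
        have e1 : s + b - x = b + ∑ a ∈ (X ∪ E).erase x, a := by omega
        rw [e1]
        exact h4)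
    obtain ⟨b, hb, rfl⟩ := mem_image.1 hy
    refine hJ0S ((hconst (j + 1) hjT (insert b (X ∪ E)) ?_ J0 hJ0 ?_ hJ0c).1 ?_)
    · intro z hz
      rcases mem_insert.1 hz with rfl | hz
      · exact (hYQ z hb).1
      · exact hXEQ hz
    · rw [card_insert_of_notMem (hYd b hb), hXEc]
    · rw [sum_insert (hYd b hb), ← hsum, add_comm]
      exact hbS
  -- no sum of at least `h` elements is a distance
  have hbig : ∀ j, h ≤ j → j ≤ H → ∀ J ⊆ Q, J.card = j → ¬ S (∑ a ∈ J, a) := by
    intro j hj hjH J hJ hJc hJS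
    have hall : ∀ i, j ≤ i → i ≤ T → ∀ J ⊆ Q, J.card = i → S (∑ a ∈ J, a) := by
      intro i hi
      induction i, hi using Nat.le_induction with
      | base =>
        intro hT' J' hJ' hJc'
        exact (hconst j hT' J hJ J' hJ' hJc hJc').1 hJS
      | succ i hi ih =>
        intro hT'
        exact hstep i (by omega) hT' (ih (by omega))
    -- a clique
    let P : ℕ → ℕ := fun i => ∑ s ∈ Ico 0 (i * j), en Q s
    have hPle : ∀ i ≤ w, i * j ≤ Q.card := by
      intro i hi
      have : i * j ≤ w * H := Nat.mul_le_mul hi hjH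
      omega
    have hPsub : ∀ i i', i ≤ i' → P i' = P i + ∑ s ∈ Ico (i * j) (i' * j), en Q s := by
      intro i i' hii
      simp only [P]
      rw [sum_Ico_consecutive _ (Nat.zero_le _) (Nat.mul_le_mul_right _ hii)]
    have hPdiff : ∀ i i', i < i' → i' ≤ w → P i < P i' ∧ S (P i' - P i) := by
      intro i i' hii hi'
      have h2 := hPsub i i' hii.le
      have h3 := seg_sum (Q := Q) (a := i * j) (hPle i' hi')
      have h4 := seg_card (Q := Q) (a := i * j) (hPle i' hi')
      have h5 := seg_sub (Q := Q) (a := i * j) (hPle i' hi')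
      have e1 : i' * j - i * j = (i' - i) * j := (Nat.sub_mul _ _ _).symm
      have h6 : j ≤ (i' - i) * j := Nat.le_mul_of_pos_left _ (by omega)
      have h7 : (i' - i) * j ≤ T := by
        have : (i' - i) * j ≤ w * H := Nat.mul_le_mul (by omega) hjH
        omega
      have h8 := hall ((i' - i) * j) h6 h7 _ h5 (by rw [h4, e1])
      rw [h3] at h8
      have h9 : 0 < ∑ s ∈ Ico (i * j) (i' * j), en Q s := by
        refine sum_pos (fun s hs => ?_) ⟨i * j, ?_⟩
        · rw [mem_Ico] at hs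
          have := hPle i' hi'
          have h10 := (hQ' _ (en_mem (J := Q) (s := s) (by omega))).2.1
          omega
        · rw [mem_Ico]
          refine ⟨le_rfl, ?_⟩
          have : 0 < (i' - i) * j := by omega
          omega
      refine ⟨by omega, ?_⟩
      rw [h2, Nat.add_sub_cancel_left]
      exact h8
    obtain ⟨x, hx, y, hy, hxy, hS⟩ := hclq ((range w).image P) (fun x hx => by
        obtain ⟨i, hi, rfl⟩ := mem_image.1 hx
        rw [mem_range] at hi
        have h2 := seg_sum (Q := Q) (a := 0) (hPle i hi.le)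
        have h3 := hle _ (seg_sub (Q := Q) (a := 0) (hPle i hi.le))
        rw [h2, seg_card (hPle i hi.le), Nat.sub_zero] at h3
        have h4 := hPle i hi.le
        have h5 : i * j * n1 ≤ q * n1 := Nat.mul_le_mul_right _ (by omega)
        simp only [P]
        omega) (by
        rw [card_image_of_injOn, card_range]
        intro a ha b hb hab
        rw [mem_coe, mem_range] at ha hb
        rcases lt_trichotomy a b with h2 | h2 | h2
        · have := (hPdiff a b h2 hb.le).1
          omega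
        · exact h2
        · have := (hPdiff b a h2 ha.le).1
          omega)
    obtain ⟨a, ha, rfl⟩ := mem_image.1 hx
    obtain ⟨b, hb, rfl⟩ := mem_image.1 hy
    rw [mem_range] at ha hb
    rcases lt_trichotomy a b with h2 | h2 | h2
    · exact hS (hPdiff a b h2 hb.le).2
    · rw [h2] at hxy
      exact lt_irrefl _ hxy
    · have := (hPdiff b a h2 ha.le).1
      omega
  -- the largest number of elements whose sums are distances
  have hS1 : ∀ J ⊆ Q, J.card = 1 → S (∑ a ∈ J, a) := by
    intro J hJ hJc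
    obtain ⟨a, rfl⟩ := card_eq_one.1 hJc
    rw [sum_singleton]
    exact (hQ' a (hJ (mem_singleton_self a))).1
  let good : ℕ → Prop := fun j => 1 ≤ j ∧ j < h ∧ ∀ J ⊆ Q, J.card = j → S (∑ a ∈ J, a)
  have hh2 : 2 ≤ h := by
    by_contra hcon
    have h2 : h = 1 := by omega
    obtain ⟨J, hJ, hJc⟩ := exists_subset_card_eq (s := Q) (n := 1) (by omega)
    refine hbig 1 (by omega) ?_ J hJ hJc (hS1 J hJ hJc)
    rw [hH, h2, mul_one]
    exact hr
  obtain ⟨j1, hj1, hmax⟩ : ∃ j, good j ∧ ∀ i, good i → i ≤ j := by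
    have hfin : ∀ i, good i → i ≤ h := fun i hi => hi.2.1.le
    refine ⟨Nat.findGreatest good h, ?_, fun i hi => Nat.le_findGreatest (hfin i hi) hi⟩
    exact Nat.findGreatest_spec (P := good) (m := 1) (by omega) ⟨le_rfl, by omega, hS1⟩
  obtain ⟨g1, g2, g3⟩ := hj1
  have hmul : ∀ m, 2 ≤ m → m ≤ r → ∀ J ⊆ Q, J.card = m * j1 → ¬ S (∑ a ∈ J, a) := by
    intro m hm hmr J hJ hJc hJS
    have h2 : j1 < m * j1 := by
      have : 2 * j1 ≤ m * j1 := Nat.mul_le_mul_right _ hm
      omega
    rcases lt_or_ge (m * j1) h with h3 | h3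
    · have hgood : good (m * j1) := by
        refine ⟨by omega, h3, fun J' hJ' hJc' => ?_⟩
        refine (hconst (m * j1) ?_ J hJ J' hJ' hJc hJc').1 hJS
        have : h ≤ H := by
          rw [hH]
          exact Nat.le_mul_of_pos_left _ hr
        omega
      have := hmax _ hgood
      omega
    · refine hbig (m * j1) h3 ?_ J hJ hJc hJS
      rw [hH]
      exact Nat.mul_le_mul hmr g2.le
  -- the windows
  let l : ℕ → ℕ := fun i => ∑ t ∈ range j1, en Q (i * j1 + t)
  have hcardr : (r + 1) * j1 ≤ Q.card := by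
    have : (r + 1) * j1 ≤ (r + 1) * (h + 1) := Nat.mul_le_mul_left _ (by omega)
    omega
  have hlseg : ∀ i j, i + j ≤ r + 1 →
      ∑ t ∈ Ico i (i + j), l t = ∑ a ∈ seg Q (i * j1) ((i + j) * j1), a := by
    intro i j hij
    have hb : (i + j) * j1 ≤ Q.card := (Nat.mul_le_mul_right _ hij).trans hcardr
    rw [seg_sum hb]
    clear hb
    induction j with
    | zero => simp
    | succ j ih =>
      rw [← Nat.add_assoc, sum_Ico_succ_top (Nat.le_add_right i j), ih (by omega)]
      have e1 : (i + j + 1) * j1 = (i + j) * j1 + j1 := Nat.succ_mul _ _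
      rw [e1, ← sum_Ico_consecutive _ (Nat.mul_le_mul_right j1 (Nat.le_add_right i j))
        (Nat.le_add_right _ _)]
      congr 1
      rw [sum_Ico_eq_sum_range, Nat.add_sub_cancel_left]
  have hl1 : ∀ i ≤ r, l i = ∑ a ∈ seg Q (i * j1) ((i + 1) * j1), a := by
    intro i hi
    rw [← hlseg i 1 (by omega)]
    simp
  have hb' : ∀ i ≤ r + 1, i * j1 ≤ Q.card := fun i hi => (Nat.mul_le_mul_right _ hi).trans hcardr
  refine hseq l (fun i hi => ?_) (fun i j h2 h3 h4 => ?_) ?_ ?_
  · have h2 := g3 _ (seg_sub (Q := Q) (a := i * j1) (hb' (i + 1) (by omega))) (by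
      rw [seg_card (hb' (i + 1) (by omega)), Nat.succ_mul, Nat.add_sub_cancel_left])
    rw [← hl1 i hi] at h2
    refine ⟨?_, h2⟩
    have h3 : 0 < l i := by
      refine sum_pos (fun s hs => ?_) ⟨0, by rw [mem_range]; omega⟩
      rw [mem_range] at hs
      have h5 := hb' (i + 1) (by omega)
      rw [Nat.succ_mul] at h5
      have h10 := (hQ' _ (en_mem (J := Q) (s := i * j1 + s) (by omega))).2.1
      omega
    exact h3
  · rw [hlseg i j h4]
    refine hmul j h2 h3 _ (seg_sub (hb' (i + j) h4)) ?_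
    rw [seg_card (hb' (i + j) h4), Nat.add_mul, Nat.add_sub_cancel_left]
  · have h2 := hlseg 0 (r + 1) (by omega)
    rw [Nat.zero_add, ← Finset.range_eq_Ico] at h2
    rw [h2]
    have h3 := hle _ (seg_sub (Q := Q) (a := 0 * j1) (hb' (r + 1) le_rfl))
    rw [seg_card (hb' (r + 1) le_rfl)] at h3
    have h4 : ((r + 1) * j1 - 0 * j1) * n1 ≤ q * n1 := Nat.mul_le_mul_right _ (by omega)
    omega
  · -- the colours
    have hcol : ∀ d ≤ 1, (c (seg Q (d * j1) ((r + d) * j1))).2.2 ⟨j1, by omega⟩ =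
        col (fun i => l (i + d)) := by
      intro d hd
      have h2 := hb' (r + d) (by omega)
      show col _ = col _
      congr 1
      funext i
      refine sum_congr rfl fun t ht => ?_
      rw [mem_range] at ht
      have h3 : d * j1 + (i * j1 + t) < (r + d) * j1 := by
        have h4 : ((i : ℕ) + 1) * j1 ≤ r * j1 := Nat.mul_le_mul_right _ i.2
        rw [Nat.succ_mul] at h4
        rw [Nat.add_mul]
        omega
      rw [en_seg h2 h3]
      congr 1
      rw [Nat.add_mul]
      omega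
    obtain ⟨cl, hcl⟩ := hQ (r * j1) (by
      have : r * j1 ≤ H := Nat.mul_le_mul_left _ g2.le
      omega)
    have e0 := hcl (seg Q (0 * j1) ((r + 0) * j1)) (seg_sub (hb' (r + 0) (by omega))) (by
      rw [seg_card (hb' (r + 0) (by omega))]
      simp)
    have e1 := hcl (seg Q (1 * j1) ((r + 1) * j1)) (seg_sub (hb' (r + 1) (by omega))) (by
      rw [seg_card (hb' (r + 1) (by omega)), Nat.add_mul, Nat.add_sub_cancel])
    have e := e0.trans e1.symm
    have h2 := hcol 0 (by omega)
    have h3 := hcol 1 le_rfl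
    rw [e] at h2
    exact h2.symm.trans h3

end Pool.Agent.T9h70.Ord
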