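import Pool.Agent.T9h70.Bic.Tree

set_option autoImplicit false

namespace Pool.Agent.T9h70.Ord

open Finset Pool.Agent.T9h70.Bic

variable {V : Type} {r : ℕ}

/-- There are no vertex `a` and stable sets `A`, `B` of `h` vertices with `a < A < B` such that `a` is
complete to `A`, `A` is complete to `B` and `a` is anticomplete to `B`. -/
def NoPat (G : SimpleGraph V) (e : V → ℕ) (h : ℕ) : Prop :=
  ∀ (a : V) (A B : Finset V), A.card = h → B.card = h → (∀ x ∈ A, ∀ y ∈ A, x ≠ y → ¬ G.Adj x y) →
    (∀ x ∈ B, ∀ y ∈ B, x ≠ y → ¬ G.Adj x y) → (∀ x ∈ A, G.Adj a x ∧ e a < e x) →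
    (∀ x ∈ A, ∀ y ∈ B, G.Adj x y ∧ e x < e y) → ∃ y ∈ B, G.Adj a y

theorem NoPat.elim' {G : SimpleGraph V} {e : V → ℕ} {h : ℕ} (hC : NoPat G e h) {ι : Type}
    (A B : Finset ι)
    (hA : A.card = h) (hB : B.card = h) (u w : ι → V)
    (hu : ∀ a ∈ A, ∀ b ∈ A, u a = u b → a = b) (hw : ∀ a ∈ B, ∀ b ∈ B, w a = w b → a = b)
    (hu' : ∀ a ∈ A, ∀ b ∈ A, a ≠ b → ¬ G.Adj (u a) (u b))
    (hw' : ∀ a ∈ B, ∀ b ∈ B, a ≠ b → ¬ G.Adj (w a) (w b)) (z : V)
    (hz : ∀ a ∈ A, G.Adj z (u a) ∧ e z < e (u a))
    (huw : ∀ a ∈ A, ∀ b ∈ B, G.Adj (u a) (w b) ∧ e (u a) < e (w b)) :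
    ∃ b ∈ B, G.Adj z (w b) := by
  classical
  obtain ⟨y, hy, hxy⟩ := hC z (A.image u) (B.image w)
    (by rw [card_image_of_injOn (fun a ha b hb hab => hu a ha b hb hab), hA])
    (by rw [card_image_of_injOn (fun a ha b hb hab => hw a ha b hb hab), hB])
    (by
      intro x hx y hy hxy
      obtain ⟨a, ha, rfl⟩ := mem_image.1 hx
      obtain ⟨b, hb, rfl⟩ := mem_image.1 hy
      exact hu' a ha b hb fun h => hxy (by rw [h]))
    (by
      intro x hx y hy hxy
      obtain ⟨a, ha, rfl⟩ := mem_image.1 hx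
      obtain ⟨b, hb, rfl⟩ := mem_image.1 hy
      exact hw' a ha b hb fun h => hxy (by rw [h]))
    (by
      intro x hx
      obtain ⟨a, ha, rfl⟩ := mem_image.1 hx
      exact hz a ha)
    (by
      intro x hx y hy
      obtain ⟨a, ha, rfl⟩ := mem_image.1 hx
      obtain ⟨b, hb, rfl⟩ := mem_image.1 hy
      exact huw a ha b hb)
  obtain ⟨b, hb, rfl⟩ := mem_image.1 hy
  exact ⟨b, hb, hxy⟩

/-- the `n` smallest elements -/
theorem split {ι : Type} [DecidableEq ι] (f : ι → ℕ) (A : Finset ι) : ∀ n ≤ A.card,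
    ∃ L ⊆ A, L.card = n ∧ ∀ a ∈ L, ∀ b ∈ A \ L, f a ≤ f b := by
  intro n
  induction n with
  | zero =>
    intro _
    exact ⟨∅, empty_subset _, card_empty, fun a ha => absurd ha (notMem_empty a)⟩
  | succ n ih =>
    intro hn
    obtain ⟨L, h1, h2, h3⟩ := ih (by omega)
    have hne : (A \ L).Nonempty := by
      rw [← card_pos, card_sdiff_of_subset h1]
      omega
    obtain ⟨m, hm, hmin⟩ := exists_min_image (A \ L) f hne
    obtain ⟨m1, m2⟩ := mem_sdiff.1 hm
    refine ⟨insert m L, ?_, ?_, ?_⟩
    · intro x hx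
      rcases mem_insert.1 hx with rfl | hx
      · exact m1
      · exact h1 hx
    · rw [card_insert_of_notMem m2, h2]
    · intro a ha b hb
      obtain ⟨b1, b2⟩ := mem_sdiff.1 hb
      have hb' : b ∈ A \ L := mem_sdiff.2 ⟨b1, fun h => b2 (mem_insert_of_mem h)⟩
      rcases mem_insert.1 ha with rfl | ha
      · exact hmin b hb'
      · exact h3 a ha b hb'

/-- a complete pair between two families with private parents is impossible -/
theorem NoPat.elim {G : SimpleGraph V} {e : V → ℕ} {h : ℕ} (hP : NoPat G e h)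
    (he : Function.Injective e) {N : ℕ} (u w : Fin N → V)
    (hu : Function.Injective u) (hw : Function.Injective w)
    (hu' : ∀ a b, a ≠ b → ¬ G.Adj (u a) (u b)) (hw' : ∀ a b, a ≠ b → ¬ G.Adj (w a) (w b))
    (y y' : V) (A B : Finset (Fin N)) (hA : A.card = 2 * h) (hB : B.card = 2 * h)
    (hyu : ∀ a, G.Adj y (u a) ∧ e y < e (u a)) (hyw : ∀ b, G.Adj y' (w b) ∧ e y' < e (w b))
    (hAB : ∀ a ∈ A, ∀ b ∈ B, G.Adj (u a) (w b)) (h1 : ∀ b ∈ B, ¬ G.Adj y (w b))
    (h2 : ∀ a ∈ A, ¬ G.Adj (u a) y') : False := by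
  classical
  obtain ⟨LA, a1, a2, a3⟩ := split (fun a => e (u a)) A h (by omega)
  obtain ⟨LB, b1, b2, b3⟩ := split (fun a => e (w a)) B h (by omega)
  have cA : (A \ LA).card = h := by
    rw [card_sdiff_of_subset a1]
    omega
  have cB : (B \ LB).card = h := by
    rw [card_sdiff_of_subset b1]
    omega
  by_cases hcase : ∀ a ∈ LA, ∀ b ∈ B \ LB, e (u a) ≤ e (w b)
  · obtain ⟨b, hb, hb'⟩ := hP.elim' LA (B \ LB) a2 cB u w (fun a _ b _ hab => hu hab)
      (fun a _ b _ hab => hw hab) (fun a _ b _ hab => hu' a b hab)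
      (fun a _ b _ hab => hw' a b hab) y (fun a _ => hyu a) (fun a ha b hb => by
        have h3 := hAB a (a1 ha) b (mem_sdiff.1 hb).1
        refine ⟨h3, lt_of_le_of_ne (hcase a ha b hb) fun h => h3.ne (he h)⟩)
    exact h1 b (mem_sdiff.1 hb).1 hb'
  · push Not at hcase
    obtain ⟨a0, ha0, b0, hb0, hlt⟩ := hcase
    obtain ⟨b, hb, hb'⟩ := hP.elim' LB (A \ LA) b2 cA w u (fun a _ b _ hab => hw hab)
      (fun a _ b _ hab => hu hab) (fun a _ b _ hab => hw' a b hab)
      (fun a _ b _ hab => hu' a b hab) y' (fun a _ => hyw a) (fun a ha b hb => by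
        have h3 := (hAB b (mem_sdiff.1 hb).1 a (b1 ha)).symm
        refine ⟨h3, ?_⟩
        have h4 : e (w a) ≤ e (w b0) := b3 a ha b0 hb0
        have h5 : e (u a0) ≤ e (u b) := a3 a0 ha0 b hb
        omega)
    exact h2 b (mem_sdiff.1 hb).1 hb'.symm

/-- a large level gives an induced tree -/
theorem tree_of_lev (M h : ℕ) (T : SimpleGraph (Fin (M + 1))) (hT : T.IsTree) : ∃ N0 : ℕ,
    ∀ N, N0 ≤ N → ∀ (V : Type) (e : V → ℕ) (D : V → V → Prop) (G : SimpleGraph V) (r : ℕ),
      M + 1 ≤ r → Function.Injective e → (∀ x y, D x y → G.Adj x y ∧ e x < e y) → NoPat G e h →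
      ∀ x : Fin (r + 1) → V, LevW D G G N M x → T.IsIndContained G := by
  classical
  obtain ⟨f, p, f1, f2, hp, f4⟩ := Pool.Agent.N471.EL.tree_enum M (Fin (M + 1)) T hT (by simp)
  set L := (M + 1) * (M + 1) with hL
  obtain ⟨N1, hN1⟩ := kst (2 * h) (2 * L)
  refine ⟨N1 + 2 * L + 1, fun N hN V e D G r hr he hD hC x0 hx0 => ?_⟩
  -- the families
  let fm : ℕ → (Fin (r + 1) → V) → Fin N → V := fun j x =>
    if h : ∃ fam : Fin N → V, Function.Injective fam ∧
      (∀ a b, a ≠ b → ¬ G.Adj (fam a) (fam b)) ∧ ∀ a, LevW D G G N j (shf x (fam a))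
    then h.choose else fun _ => x (Fin.last r)
  have hfm : ∀ j x, LevW D G G N (j + 1) x → Function.Injective (fm j x) ∧
      (∀ a b, a ≠ b → ¬ G.Adj (fm j x a) (fm j x b)) ∧
      ∀ a, LevW D G G N j (shf x (fm j x a)) := by
    intro j x hx
    have h := hx.2
    simp only [fm, dif_pos h]
    exact h.choose_spec
  have hpar : ∀ j x, LevW D G G N (j + 1) x → ∀ a, G.Adj (x (Fin.last r)) (fm j x a) ∧
      e (x (Fin.last r)) < e (fm j x a) := by
    intro j x hx a
    have h1 := ((hfm j x hx).2.2 a).ind.1 ⟨r - 1, by omega⟩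
    have e1 : (⟨r - 1, by omega⟩ : Fin r).succ = Fin.last r := by
      ext
      simp
      omega
    rw [shf_castSucc, e1, shf_last] at h1
    exact hD _ _ h1
  have hlev : ∀ ω : Fin (M + 1) → Fin N, ∀ j ≤ M, LevW D G G N (M - dp p j) (st p fm x0 ω j) := by
    intro ω j
    induction j using Nat.strong_induction_on with
    | _ j ih =>
      intro hjM
      rcases Nat.eq_zero_or_pos j with rfl | hj
      · rw [st_zero, dp_zero]
        exact hx0
      · have h1 := hp j hj
        have h2 := ih (p j) h1 (by omega)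
        have h3 := dp_le hp j
        have h4 := dp_pos hp hj
        have e : M - dp p (p j) = (M - dp p j) + 1 := by omega
        rw [e] at h2
        rw [st_pos hp fm x0 ω hj]
        exact (hfm _ _ h2).2.2 _
  -- a node and its parent
  have hlevp : ∀ ω : Fin (M + 1) → Fin N, ∀ j, 1 ≤ j → j ≤ M →
      LevW D G G N ((M - dp p j) + 1) (st p fm x0 ω (p j)) := by
    intro ω j hj hjM
    have h1 := hp j hj
    have h2 := hlev ω (p j) (by omega)
    have h3 := dp_le hp j
    have h4 := dp_pos hp hj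
    have e : M - dp p (p j) = (M - dp p j) + 1 := by omega
    rwa [e] at h2
  have hvt : ∀ (ω : Fin (M + 1) → Fin N) (j : ℕ), 1 ≤ j → st p fm x0 ω j (Fin.last r) =
      fm (M - dp p j) (st p fm x0 ω (p j)) (ω (Fin.ofNat (M + 1) j)) := by
    intro ω j hj
    rw [st_pos hp fm x0 ω hj, shf_last]
  -- the pairs of nodes
  let I : Finset (Fin (M + 1) × Fin (M + 1)) :=
    univ.filter fun q => (q.1 : ℕ) < q.2 ∧ ¬ ∃ s ≤ dp p q.2, p^[s] q.2 = q.1
  have hI : I.card ≤ L := by
    have := card_le_univ I
    rwa [Fintype.card_prod, Fintype.card_fin] at this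
  obtain ⟨ω, hω⟩ := exists_avoid (L := L) (N := N) (by omega) I hI (by
      intro q hq heq
      have := (mem_filter.1 hq).2.1
      rw [heq] at this
      exact lt_irrefl _ this)
    (fun q ω => st p fm x0 ω q.1 (Fin.last r) = st p fm x0 ω q.2 (Fin.last r) ∨
      (G.Adj (st p fm x0 ω q.1 (Fin.last r)) (st p fm x0 ω q.2 (Fin.last r)) ∧
        ¬ G.Adj (st p fm x0 ω (p q.1) (Fin.last r)) (st p fm x0 ω q.2 (Fin.last r)) ∧
        ¬ G.Adj (st p fm x0 ω q.1 (Fin.last r)) (st p fm x0 ω (p q.2) (Fin.last r)))) (by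
      rintro ⟨i, j⟩ hq ω P hP
      obtain ⟨-, hij, hanc⟩ := mem_filter.1 hq
      simp only at hij hanc hP
      have hjM : (j : ℕ) ≤ M := by omega
      have hiM : (i : ℕ) ≤ M := by omega
      have hi0 : 1 ≤ (i : ℕ) := by
        by_contra h0
        refine hanc ⟨dp p j, le_rfl, ?_⟩
        rw [iter_dp hp]
        omega
      have hj0 : 1 ≤ (j : ℕ) := by omega
      have hpi := hp i hi0
      have hpj := hp j hj0
      have ei : Fin.ofNat (M + 1) (i : ℕ) = i := by
        ext
        simp only [Fin.ofNat]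
        exact Nat.mod_eq_of_lt (by omega)
      have ej : Fin.ofNat (M + 1) (j : ℕ) = j := by
        ext
        simp only [Fin.ofNat]
        exact Nat.mod_eq_of_lt (by omega)
      have hne : i ≠ j := fun h => by rw [h] at hij; exact lt_irrefl _ hij
      set u : Fin N → V := fm (M - dp p i) (st p fm x0 ω (p i)) with hu
      set w : Fin N → V := fm (M - dp p j) (st p fm x0 ω (p j)) with hw
      have nai : ¬ ∃ s ≤ dp p (p i), p^[s] (p i) = i := by
        rintro ⟨s, s1, s2⟩
        have := iter_le hp s (p i) s1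
        omega
      have naj : ¬ ∃ s ≤ dp p (p i), p^[s] (p i) = j := by
        rintro ⟨s, s1, s2⟩
        have := iter_le hp s (p i) s1
        omega
      have nbj : ¬ ∃ s ≤ dp p (p j), p^[s] (p j) = j := by
        rintro ⟨s, s1, s2⟩
        have := iter_le hp s (p j) s1
        omega
      have nbi : ¬ ∃ s ≤ dp p (p j), p^[s] (p j) = i := by
        rintro ⟨s, s1, s2⟩
        refine hanc ⟨s + 1, ?_, ?_⟩
        · rw [dp_pos hp hj0]
          omega
        · rw [Function.iterate_succ_apply]
          exact s2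
      have key : ∀ x ∈ P, u x.1 = w x.2 ∨ (G.Adj (u x.1) (w x.2) ∧
          ¬ G.Adj (st p fm x0 ω (p i) (Fin.last r)) (w x.2) ∧
          ¬ G.Adj (u x.1) (st p fm x0 ω (p j) (Fin.last r))) := by
        intro x hx
        have h1 := hP x hx
        rw [hvt _ i hi0, hvt _ j hj0, st_indep hp fm x0 _ j _ (p i) (by omega) naj,
          st_indep hp fm x0 _ i _ (p i) (by omega) nai,
          st_indep hp fm x0 _ j _ (p j) (by omega) nbj,
          st_indep hp fm x0 _ i _ (p j) (by omega) nbi, ei, ej, Function.update_self,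
          Function.update_of_ne hne, Function.update_self] at h1
        exact h1
      obtain ⟨u1, u2, -⟩ := hfm _ _ (hlevp ω i hi0 hiM)
      obtain ⟨w1, w2, -⟩ := hfm _ _ (hlevp ω j hj0 hjM)
      have u3 := hpar _ _ (hlevp ω i hi0 hiM)
      have w3 := hpar _ _ (hlevp ω j hj0 hjM)
      have hP1 : (P.filter fun x => u x.1 = w x.2).card ≤ N := by
        have h1 := card_le_card_of_injOn (s := P.filter fun x => u x.1 = w x.2)
          (t := (univ : Finset (Fin N))) (fun x => x.1) (fun x _ => mem_coe.2 (mem_univ _)) (by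
            rintro ⟨a, b⟩ hx ⟨a', b'⟩ hy (heq : a = a')
            have h2 := (mem_filter.1 (mem_coe.1 hx)).2
            have h3 := (mem_filter.1 (mem_coe.1 hy)).2
            simp only at h2 h3
            rw [heq, h3] at h2
            rw [heq, w1 h2])
        rwa [card_univ, Fintype.card_fin] at h1
      have hP2 : 2 * L * (P.filter fun x => (G.Adj (u x.1) (w x.2) ∧
          ¬ G.Adj (st p fm x0 ω (p i) (Fin.last r)) (w x.2) ∧
          ¬ G.Adj (u x.1) (st p fm x0 ω (p j) (Fin.last r)))).card < N ^ 2 := by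
        refine hN1 N (by omega) (fun a b => G.Adj (u a) (w b) ∧
          ¬ G.Adj (st p fm x0 ω (p i) (Fin.last r)) (w b) ∧
          ¬ G.Adj (u a) (st p fm x0 ω (p j) (Fin.last r))) ?_ _ fun x hx => (mem_filter.1 hx).2
        rintro ⟨A, B, hA, hB, hAB⟩
        rcases Nat.eq_zero_or_pos h with hh | hh
        · subst hh
          obtain ⟨b, hb, -⟩ := hC (x0 (Fin.last r)) ∅ ∅ rfl rfl (by simp) (by simp) (by simp)
            (by simp)
          simp at hb
        obtain ⟨a0, ha0⟩ : A.Nonempty := card_pos.1 (by omega)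
        obtain ⟨b0, hb0⟩ : B.Nonempty := card_pos.1 (by omega)
        exact hC.elim he u w u1 w1 u2 w2 _ _ A B hA hB u3 w3 (fun a ha b hb => (hAB a ha b hb).1)
          (fun b hb => (hAB a0 ha0 b hb).2.1) (fun a ha => (hAB a ha b0 hb0).2.2)
      have hP3 : P.card ≤ (P.filter fun x => u x.1 = w x.2).card +
          (P.filter fun x => (G.Adj (u x.1) (w x.2) ∧
          ¬ G.Adj (st p fm x0 ω (p i) (Fin.last r)) (w x.2) ∧
          ¬ G.Adj (u x.1) (st p fm x0 ω (p j) (Fin.last r)))).card := by
        refine (card_le_card ?_).trans (card_union_le _ _)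
        intro x hx
        rw [mem_union, mem_filter, mem_filter]
        rcases key x hx with h | h
        · exact Or.inl ⟨hx, h⟩
        · exact Or.inr ⟨hx, h⟩
      have h5 : 2 * L * N ≤ N * N := Nat.mul_le_mul_right N (by omega)
      have h6 : 2 * (L * P.card) < 2 * N ^ 2 := by
        have h7 := Nat.mul_le_mul_left (2 * L) hP3
        have h8 := Nat.mul_le_mul_left (2 * L) hP1
        rw [Nat.mul_add] at h7
        have h9 : 2 * (L * P.card) = 2 * L * P.card := by ring
        rw [h9]
        have h10 : N ^ 2 = N * N := sq N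
        omega
      exact Nat.lt_of_mul_lt_mul_left h6)
  -- the levels of the windows
  have hwin : ∀ j, j ≤ M → ∀ s, 2 ≤ s → s ≤ dp p j →
      st p fm x0 ω (p^[s] j) (Fin.last r) ≠ st p fm x0 ω j (Fin.last r) ∧
      ¬ G.Adj (st p fm x0 ω (p^[s] j) (Fin.last r)) (st p fm x0 ω j (Fin.last r)) := by
    intro j hjM s hs2 s1
    have hd := dp_le hp j
    have hind := (hlev ω j hjM).ind
    have h1 := st_entry hp fm x0 ω s j s1 (by omega)
    have h2 := hind.2 ⟨r - s, by omega⟩ (Fin.last r) (by simp; omega)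
    rw [h1] at h2
    exact h2
  -- pairs of nodes which are not related
  have nrel : ∀ t i j, dp p i + dp p j ≤ t → i < j → j ≤ M → (¬ ∃ s ≤ dp p j, p^[s] j = i) →
      ¬ G.Adj (st p fm x0 ω i (Fin.last r)) (st p fm x0 ω j (Fin.last r)) := by
    intro t
    induction t with
    | zero =>
      intro i j ht hij hjM hanc hadj
      have hj0 : 1 ≤ j := by omega
      have := dp_pos hp hj0
      omega
    | succ t ih =>
      intro i j ht hij hjM hanc hadj
      have hi0 : 1 ≤ i := by
        by_contra h0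
        refine hanc ⟨dp p j, le_rfl, ?_⟩
        rw [iter_dp hp]
        omega
      have hj0 : 1 ≤ j := by omega
      have hpi := hp i hi0
      have hpj := hp j hj0
      have di := dp_pos hp hi0
      have dj := dp_pos hp hj0
      by_cases hsib : p i = p j
      · -- siblings
        have d1 : dp p i = dp p j := by rw [di, dj, hsib]
        rw [hvt _ i hi0, hvt _ j hj0, hsib, d1] at hadj
        by_cases hidx : ω (Fin.ofNat (M + 1) i) = ω (Fin.ofNat (M + 1) j)
        · rw [hidx] at hadj
          exact hadj.ne rfl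
        · exact (hfm _ _ (hlevp ω j hj0 hjM)).2.1 _ _ hidx hadj
      have hav := hω (⟨i, by omega⟩, ⟨j, by omega⟩) (mem_filter.2 ⟨mem_univ _, hij, hanc⟩)
      simp only [not_or, not_and, not_not] at hav
      by_cases h1 : G.Adj (st p fm x0 ω (p i) (Fin.last r)) (st p fm x0 ω j (Fin.last r))
      · by_cases h2 : ∃ s ≤ dp p j, p^[s] j = p i
        · obtain ⟨s, s1, s2⟩ := h2
          have hs : 2 ≤ s := by
            by_contra h3
            have : s = 0 ∨ s = 1 := by omega
            rcases this with rfl | rfl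
            · simp only [Function.iterate_zero, id] at s2
              omega
            · simp only [Function.iterate_one] at s2
              exact hsib s2.symm
          have h3 := (hwin j hjM s hs s1).2
          rw [s2] at h3
          exact h3 h1
        · exact ih (p i) j (by omega) (by omega) hjM h2 h1
      · have h2 := hav.2 hadj h1
        rcases lt_trichotomy i (p j) with h3 | h3 | h3
        · by_cases h4 : ∃ s ≤ dp p (p j), p^[s] (p j) = i
          · obtain ⟨s, s1, s2⟩ := h4
            refine hanc ⟨s + 1, ?_, ?_⟩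
            · omega
            · rw [Function.iterate_succ_apply]
              exact s2
          · exact ih i (p j) (by omega) h3 (by omega) h4 h2
        · refine hanc ⟨1, by omega, ?_⟩
          simp only [Function.iterate_one]
          exact h3.symm
        · by_cases h4 : ∃ s ≤ dp p i, p^[s] i = p j
          · obtain ⟨s, s1, s2⟩ := h4
            have hs : 2 ≤ s := by
              by_contra h5
              have : s = 0 ∨ s = 1 := by omega
              rcases this with rfl | rfl
              · simp only [Function.iterate_zero, id] at s2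
                omega
              · simp only [Function.iterate_one] at s2
                exact hsib s2
            have h5 := (hwin i (by omega) s hs s1).2
            rw [s2] at h5
            exact h5 h2.symm
          · exact ih (p j) i (by omega) h3 (by omega) h4 h2.symm
  -- the embedding
  have key : ∀ i j, i < j → j ≤ M →
      st p fm x0 ω i (Fin.last r) ≠ st p fm x0 ω j (Fin.last r) ∧
      (G.Adj (st p fm x0 ω i (Fin.last r)) (st p fm x0 ω j (Fin.last r)) ↔ p j = i) := by
    intro i j hij hjM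
    have hj0 : 1 ≤ j := by omega
    have hd := dp_le hp j
    have hdj := dp_pos hp hj0
    by_cases hpj : p j = i
    · have h2 := (hpar _ _ (hlevp ω j hj0 hjM) (ω (Fin.ofNat (M + 1) j))).1
      rw [← hvt ω j hj0, hpj] at h2
      exact ⟨h2.ne, fun _ => hpj, fun _ => h2⟩
    · by_cases hanc : ∃ s ≤ dp p j, p^[s] j = i
      · obtain ⟨s, s1, s2⟩ := hanc
        have hs2 : 2 ≤ s := by
          by_contra h1
          have : s = 0 ∨ s = 1 := by omega
          rcases this with rfl | rfl
          · simp only [Function.iterate_zero, id] at s2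
            omega
          · simp only [Function.iterate_one] at s2
            exact hpj s2
        have h2 := hwin j hjM s hs2 s1
        rw [s2] at h2
        exact ⟨h2.1, fun h3 => absurd h3 h2.2, fun h3 => absurd h3 hpj⟩
      · have h1 := hω (⟨i, by omega⟩, ⟨j, by omega⟩) (mem_filter.2 ⟨mem_univ _, hij, hanc⟩)
        simp only [not_or] at h1
        exact ⟨h1.1, fun h3 => absurd h3 (nrel _ i j le_rfl hij hjM hanc),
          fun h3 => absurd h3 hpj⟩
  refine ⟨⟨⟨fun v => st p fm x0 ω (f v) (Fin.last r), fun u v huv => ?_⟩, fun {u v} => ?_⟩⟩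
  · simp only at huv
    rcases lt_trichotomy (f u) (f v) with h | h | h
    · exact absurd huv (key _ _ h (f2 v)).1
    · exact f1 h
    · exact absurd huv.symm (key _ _ h (f2 u)).1
  · show G.Adj (st p fm x0 ω (f u) (Fin.last r)) (st p fm x0 ω (f v) (Fin.last r)) ↔ T.Adj u v
    rcases lt_trichotomy (f u) (f v) with h | h | h
    · rw [(key _ _ h (f2 v)).2, f4 u v h]
    · have : u = v := f1 h
      subst this
      exact ⟨fun h => absurd h (G.loopless.irrefl _), fun h => absurd h (T.loopless.irrefl _)⟩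
    · rw [G.adj_comm, T.adj_comm, (key _ _ h (f2 u)).2, f4 v u h]

end Pool.Agent.T9h70.Ord
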